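import Pool.Agent.Lib.MP_77f37b_al.SFin

namespace Pool.Agent.Results.MP_77f37b_al.SimpleQuotients

theorem result : ∃ p₀ : ℕ, ∀ p : ℕ, p.Prime → p₀ ≤ p → ∀ d : ℕ, (d : ℝ) ≤ Real.exp (p / 10) →
    Set.Infinite {n : ℕ | ¬ p ∣ n ∧ ∃ a b : Equiv.Perm (Fin n),
      IsSimpleGroup (Subgroup.closure ({a, b} : Set (Equiv.Perm (Fin n)))) ∧
      (∀ i j, ∃ g ∈ Subgroup.closure ({a, b} : Set (Equiv.Perm (Fin n))), g i = j) ∧
      ∀ w : List (Equiv.Perm (Fin n)), (∀ z ∈ w, z = a ∨ z = a⁻¹ ∨ z = b ∨ z = b⁻¹) →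
        w.length ≤ d → w.prod ^ p = 1} :=
  MP77.S99.main

end Pool.Agent.Results.MP_77f37b_al.SimpleQuotients
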